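import Pool.Agent.helper74.VN.SpecA

/-!
# Project VN (MP_07c750_an), row NUB: bounds and continuity of the data of the potential
-/

set_option autoImplicit false

open scoped MatrixGroups ContDiff Topology UpperHalfPlane ComplexConjugate ENNReal
open UpperHalfPlane MeasureTheory Filter Set

namespace Pool.Agent.VN

open Pool.Agent.RS Pool.Agent.VQ

noncomputable section

/-! ## The moving frame -/

/-- the entries of `g` -/
def NUB_m (g : SL(2, ℝ)) : Fin 4 → ℝ := ![g.1 0 0, g.1 0 1, g.1 1 0, g.1 1 1]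

theorem NUB_m_cont : Continuous NUB_m := by
  refine continuous_pi fun i => ?_
  have h : ∀ a b : Fin 2, Continuous fun g : SL(2, ℝ) => g.1 a b := fun a b =>
    continuous_subtype_val.matrix_elem a b
  fin_cases i
  · exact h 0 0
  · exact h 0 1
  · exact h 1 0
  · exact h 1 1

/-- the denominator of the frame in the disc coordinate -/
def NUB_dn (x : Fin 4 → ℝ) (v : ℂ) : ℂ := 2 * ((x 2 : ℂ) * Complex.I + (x 3 : ℂ)) + ((x 2 : ℂ) * Complex.I - (x 3 : ℂ)) * v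

/-- the numerator of the frame in the disc coordinate -/
def NUB_nu (x : Fin 4 → ℝ) (v : ℂ) : ℂ := 2 * ((x 0 : ℂ) * Complex.I + (x 1 : ℂ)) + ((x 0 : ℂ) * Complex.I - (x 1 : ℂ)) * v

/-- the potential in the frame of the matrix `x` -/
def NUB_f (U : ℍ → ℝ) (x : Fin 4 → ℝ) (v : ℂ) : ℝ := QU.onC U (NUB_nu x v / NUB_dn x v)

theorem NUB_smooth_c (i : Fin 4) : ContDiff ℝ ∞ (fun p : (Fin 4 → ℝ) × ℂ => ((p.1 i : ℝ) : ℂ)) :=
  Complex.ofRealCLM.contDiff.comp ((contDiff_apply ℝ ℝ i).comp contDiff_fst)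

theorem NUB_smooth_nu : ContDiff ℝ ∞ (fun p : (Fin 4 → ℝ) × ℂ => NUB_nu p.1 p.2) :=
  (contDiff_const.mul (((NUB_smooth_c 0).mul contDiff_const).add (NUB_smooth_c 1))).add
    ((((NUB_smooth_c 0).mul contDiff_const).sub (NUB_smooth_c 1)).mul contDiff_snd)

theorem NUB_smooth_dn : ContDiff ℝ ∞ (fun p : (Fin 4 → ℝ) × ℂ => NUB_dn p.1 p.2) :=
  (contDiff_const.mul (((NUB_smooth_c 2).mul contDiff_const).add (NUB_smooth_c 3))).add
    ((((NUB_smooth_c 2).mul contDiff_const).sub (NUB_smooth_c 3)).mul contDiff_snd)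

theorem NUB_den_ne (g : SL(2, ℝ)) (z : ℍ) : (g.1 1 0 : ℂ) * (z : ℂ) + (g.1 1 1 : ℂ) ≠ 0 := by
  intro h
  have hz := z.im_pos
  have h2 : g.1 1 0 = 0 := by
    have h3 := congrArg Complex.im h
    have h4 : g.1 1 0 * z.im = 0 := by simpa using h3
    rcases mul_eq_zero.1 h4 with h5 | h5
    · exact h5
    · exact absurd h5 hz.ne'
  have h3 : g.1 1 1 = 0 := by
    rw [h2] at h
    have := congrArg Complex.re h
    simpa using this
  have hd := g.2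
  rw [Matrix.det_fin_two, h2, h3] at hd
  simp at hd

theorem NUB_coe (g : SL(2, ℝ)) (z : ℍ) : ((g • z : ℍ) : ℂ) =
    ((g.1 0 0 : ℂ) * (z : ℂ) + (g.1 0 1 : ℂ)) / ((g.1 1 0 : ℂ) * (z : ℂ) + (g.1 1 1 : ℂ)) := by
  rw [UpperHalfPlane.coe_specialLinearGroup_apply]
  simp

theorem NUB_mob (hVCD : VCD_stmt) (g : SL(2, ℝ)) (v : ℂ) (hv : ‖v‖ < 2) :
    NUB_dn (NUB_m g) v ≠ 0 ∧ NUB_nu (NUB_m g) v / NUB_dn (NUB_m g) v = ((g • cdi v : ℍ) : ℂ) := by
  have h2v : (2 : ℂ) - v ≠ 0 := by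
    intro h
    have h1 : v = 2 := (sub_eq_zero.1 h).symm
    rw [h1] at hv
    simp at hv
  have hc := (hVCD.2.1 v hv).2
  have hd := NUB_den_ne g (cdi v)
  rw [hc] at hd
  have e1 : NUB_dn (NUB_m g) v = ((g.1 1 0 : ℂ) * (Complex.I * (2 + v) / (2 - v)) + (g.1 1 1 : ℂ)) * (2 - v) := by
    simp only [NUB_dn, NUB_m, Matrix.cons_val]
    field_simp
    ring
  have e2 : NUB_nu (NUB_m g) v = ((g.1 0 0 : ℂ) * (Complex.I * (2 + v) / (2 - v)) + (g.1 0 1 : ℂ)) * (2 - v) := by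
    simp only [NUB_nu, NUB_m, Matrix.cons_val]
    field_simp
    ring
  refine ⟨?_, ?_⟩
  · rw [e1]
    exact mul_ne_zero hd h2v
  · rw [e1, e2, NUB_coe, hc, mul_div_mul_right _ _ h2v]

theorem NUB_open : IsOpen {w : ℂ | 0 < w.im} := isOpen_lt continuous_const Complex.continuous_im

theorem NUB_Ug (hVCD : VCD_stmt) (U : ℍ → ℝ) (g : SL(2, ℝ)) (v : ℂ) (hv : ‖v‖ < 2) : Ug U g v = NUB_f U (NUB_m g) v := by
  unfold NUB_f
  rw [(NUB_mob hVCD g v hv).2]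
  unfold QU.onC Ug
  rw [UpperHalfPlane.ofComplex_apply]

theorem NUB_ev (hVCD : VCD_stmt) (U : ℍ → ℝ) (g : SL(2, ℝ)) (v : ℂ) (hv : ‖v‖ < 2) : Ug U g =ᶠ[𝓝 v] NUB_f U (NUB_m g) := by
  have h : Metric.ball (0 : ℂ) 2 ∈ 𝓝 v := Metric.isOpen_ball.mem_nhds (by rwa [mem_ball_zero_iff])
  filter_upwards [h] with w hw
  rw [mem_ball_zero_iff] at hw
  exact NUB_Ug hVCD U g w hw

theorem NUB_smooth (hVCD : VCD_stmt) (U : ℍ → ℝ) (hU : QU.CD ∞ U) (g : SL(2, ℝ)) (v : ℂ) (hv : ‖v‖ < 2) :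
    ContDiffAt ℝ ∞ (Function.uncurry (NUB_f U)) (NUB_m g, v) := by
  have hU' : ContDiffOn ℝ ∞ (QU.onC U) {w : ℂ | 0 < w.im} := hU
  obtain ⟨h1, h2⟩ := NUB_mob hVCD g v hv
  have h3 : ContDiffAt ℝ ∞ (fun p : (Fin 4 → ℝ) × ℂ => NUB_nu p.1 p.2 / NUB_dn p.1 p.2) (NUB_m g, v) := by
    have h4 : ContDiffAt ℝ ∞ (fun p : (Fin 4 → ℝ) × ℂ => (NUB_dn p.1 p.2)⁻¹) (NUB_m g, v) :=
      NUB_smooth_dn.contDiffAt.inv h1
    exact (NUB_smooth_nu.contDiffAt.mul h4).congr_of_eventuallyEq (Eventually.of_forall fun _ => div_eq_mul_inv _ _)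
  have h5 : ContDiffAt ℝ ∞ (QU.onC U) (NUB_nu (NUB_m g) v / NUB_dn (NUB_m g) v) := by
    rw [h2]
    exact hU'.contDiffAt (NUB_open.mem_nhds (g • cdi v).im_pos)
  exact h5.comp (NUB_m g, v) h3

theorem NUB_smooth1 (hVCD : VCD_stmt) (U : ℍ → ℝ) (hU : QU.CD ∞ U) (g : SL(2, ℝ)) (v : ℂ) (hv : ‖v‖ < 2) :
    ContDiffAt ℝ ∞ (Function.uncurry fun (x : Fin 4 → ℝ) (w : ℂ) => fderiv ℝ (NUB_f U x) w) (NUB_m g, v) := by
  have h1 : ContDiffAt ℝ ∞ (Function.uncurry fun (p : (Fin 4 → ℝ) × ℂ) (w : ℂ) => NUB_f U p.1 w) ((NUB_m g, v), v) := by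
    have h2 := NUB_smooth hVCD U hU g v hv
    have h3 : ContDiffAt ℝ ∞ (fun q : ((Fin 4 → ℝ) × ℂ) × ℂ => (q.1.1, q.2)) ((NUB_m g, v), v) :=
      ((contDiff_fst.comp contDiff_fst).prodMk contDiff_snd).contDiffAt
    exact ContDiffAt.comp (g := Function.uncurry (NUB_f U)) ((NUB_m g, v), v) h2 h3
  exact ContDiffAt.fderiv (f := fun (p : (Fin 4 → ℝ) × ℂ) (w : ℂ) => NUB_f U p.1 w) (g := fun p => p.2) h1
    contDiff_snd.contDiffAt (by simp)

theorem NUB_smooth2 (hVCD : VCD_stmt) (U : ℍ → ℝ) (hU : QU.CD ∞ U) (g : SL(2, ℝ)) (v : ℂ) (hv : ‖v‖ < 2) :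
    ContDiffAt ℝ ∞ (Function.uncurry fun (x : Fin 4 → ℝ) (w : ℂ) => fderiv ℝ (fderiv ℝ (NUB_f U x)) w) (NUB_m g, v) := by
  have h1 : ContDiffAt ℝ ∞ (Function.uncurry fun (p : (Fin 4 → ℝ) × ℂ) (w : ℂ) => fderiv ℝ (NUB_f U p.1) w) ((NUB_m g, v), v) := by
    have h2 := NUB_smooth1 hVCD U hU g v hv
    have h3 : ContDiffAt ℝ ∞ (fun q : ((Fin 4 → ℝ) × ℂ) × ℂ => (q.1.1, q.2)) ((NUB_m g, v), v) :=
      ((contDiff_fst.comp contDiff_fst).prodMk contDiff_snd).contDiffAt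
    exact ContDiffAt.comp ((NUB_m g, v), v) h2 h3
  exact ContDiffAt.fderiv (f := fun (p : (Fin 4 → ℝ) × ℂ) (w : ℂ) => fderiv ℝ (NUB_f U p.1) w) (g := fun p => p.2) h1
    contDiff_snd.contDiffAt (by simp)

theorem NUB_at (g : SL(2, ℝ)) : ContinuousAt (fun g' : SL(2, ℝ) => (NUB_m g', (0 : ℂ))) g :=
  NUB_m_cont.continuousAt.prodMk continuousAt_const

theorem NUB_c0 (hVCD : VCD_stmt) (U : ℍ → ℝ) (hU : QU.CD ∞ U) : Continuous fun g : SL(2, ℝ) => Ug U g 0 := by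
  refine continuous_iff_continuousAt.2 fun g => ?_
  have h1 := (NUB_smooth hVCD U hU g 0 (by simp)).continuousAt
  have h2 : ContinuousAt (fun g' : SL(2, ℝ) => Function.uncurry (NUB_f U) (NUB_m g', (0 : ℂ))) g :=
    ContinuousAt.comp (g := Function.uncurry (NUB_f U)) h1 (NUB_at g)
  have h3 : (fun g : SL(2, ℝ) => Ug U g 0) = fun g' : SL(2, ℝ) => Function.uncurry (NUB_f U) (NUB_m g', (0 : ℂ)) := by
    funext g'
    exact NUB_Ug hVCD U g' 0 (by simp)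
  rw [h3]
  exact h2

theorem NUB_c1 (hVCD : VCD_stmt) (U : ℍ → ℝ) (hU : QU.CD ∞ U) (w : ℂ) : Continuous fun g : SL(2, ℝ) => fderiv ℝ (Ug U g) 0 w := by
  refine continuous_iff_continuousAt.2 fun g => ?_
  have h1 := (NUB_smooth1 hVCD U hU g 0 (by simp)).continuousAt
  have h2 : ContinuousAt (fun g' : SL(2, ℝ) => fderiv ℝ (NUB_f U (NUB_m g')) 0) g :=
    ContinuousAt.comp (f := fun g' : SL(2, ℝ) => (NUB_m g', (0 : ℂ))) h1 (NUB_at g)
  have h3 : (fun g : SL(2, ℝ) => fderiv ℝ (Ug U g) 0 w) = fun g' : SL(2, ℝ) => fderiv ℝ (NUB_f U (NUB_m g')) 0 w := by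
    funext g'
    rw [(NUB_ev hVCD U g' 0 (by simp)).fderiv_eq]
  rw [h3]
  exact h2.clm_apply continuousAt_const

theorem NUB_c2 (hVCD : VCD_stmt) (U : ℍ → ℝ) (hU : QU.CD ∞ U) (w w' : ℂ) :
    Continuous fun g : SL(2, ℝ) => fderiv ℝ (fderiv ℝ (Ug U g)) 0 w w' := by
  refine continuous_iff_continuousAt.2 fun g => ?_
  have h1 := (NUB_smooth2 hVCD U hU g 0 (by simp)).continuousAt
  have h2 : ContinuousAt (fun g' : SL(2, ℝ) => fderiv ℝ (fderiv ℝ (NUB_f U (NUB_m g'))) 0) g :=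
    ContinuousAt.comp (f := fun g' : SL(2, ℝ) => (NUB_m g', (0 : ℂ))) h1 (NUB_at g)
  have h3 : (fun g : SL(2, ℝ) => fderiv ℝ (fderiv ℝ (Ug U g)) 0 w w') =
      fun g' : SL(2, ℝ) => fderiv ℝ (fderiv ℝ (NUB_f U (NUB_m g'))) 0 w w' := by
    funext g'
    rw [(NUB_ev hVCD U g' 0 (by simp)).fderiv.fderiv_eq]
  rw [h3]
  exact (h2.clm_apply continuousAt_const).clm_apply continuousAt_const

theorem NUB_cd (hVCD : VCD_stmt) (U : ℍ → ℝ) (hU : QU.CD ∞ U) (g : SL(2, ℝ)) (v : ℂ) (hv : ‖v‖ < 2) : ContDiffAt ℝ ∞ (Ug U g) v := by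
  have h1 := NUB_smooth hVCD U hU g v hv
  have h2 : ContDiffAt ℝ ∞ (fun w : ℂ => Function.uncurry (NUB_f U) (NUB_m g, w)) v :=
    ContDiffAt.comp (g := Function.uncurry (NUB_f U)) v h1 (contDiffAt_const.prodMk contDiffAt_id)
  exact h2.congr_of_eventuallyEq (NUB_ev hVCD U g v hv)

theorem NUB_cdi0 (hVCD : VCD_stmt) : cdi 0 = I := by
  have h := (hVCD.1 I).2
  rw [hVCD.2.2.1] at h
  exact h

/-! ## Taylor's formula -/

theorem NUB_lip {G : Type} [NormedAddCommGroup G] [NormedSpace ℝ G] (F : ℂ → G) (q : ℝ)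
    (hd : ∀ w : ℂ, ‖w‖ ≤ 1 → DifferentiableAt ℝ F w) (hb : ∀ w : ℂ, ‖w‖ ≤ 1 → ‖iteratedFDeriv ℝ 1 F w‖ ≤ q)
    (w : ℂ) (hw : ‖w‖ ≤ 1) : ‖F w - F 0‖ ≤ q * ‖w‖ := by
  have h := (convex_closedBall (0 : ℂ) 1).norm_image_sub_le_of_norm_fderiv_le (𝕜 := ℝ)
    (f := F) (C := q) (fun x hx => hd x (by rwa [mem_closedBall_zero_iff] at hx))
    (fun x hx => by
      rw [← norm_iteratedFDeriv_one]
      exact hb x (by rwa [mem_closedBall_zero_iff] at hx))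
    (x := 0) (y := w) (by simp) (by rwa [mem_closedBall_zero_iff])
  rwa [sub_zero] at h

theorem NUB_taylor (f : ℂ → ℝ) (q : ℝ) (hq : 0 ≤ q) (hf : ∀ v : ℂ, ‖v‖ ≤ 1 → ContDiffAt ℝ ∞ f v)
    (h3 : ∀ v : ℂ, ‖v‖ ≤ 1 → ‖iteratedFDeriv ℝ 3 f v‖ ≤ q) (v : ℂ) (hv : ‖v‖ ≤ 1) :
    |f v - f 0 - fderiv ℝ f 0 v - fderiv ℝ (fderiv ℝ f) 0 v v / 2| ≤ q * ‖v‖ ^ 3 := by
  have hs : ∀ s ∈ Icc (0 : ℝ) 1, ‖(s : ℝ) • v‖ ≤ 1 := by
    intro s hs
    rw [norm_smul, Real.norm_of_nonneg hs.1]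
    exact mul_le_one₀ hs.2 (norm_nonneg _) hv
  have hd1 : ∀ w : ℂ, ‖w‖ ≤ 1 → DifferentiableAt ℝ f w := fun w hw => (hf w hw).differentiableAt (by simp)
  have hC1 : ∀ w : ℂ, ‖w‖ ≤ 1 → ContDiffAt ℝ ∞ (fderiv ℝ f) w := fun w hw => (hf w hw).fderiv_right (by simp)
  have hd2 : ∀ w : ℂ, ‖w‖ ≤ 1 → DifferentiableAt ℝ (fderiv ℝ f) w := fun w hw => (hC1 w hw).differentiableAt (by simp)
  have hd3 : ∀ w : ℂ, ‖w‖ ≤ 1 → DifferentiableAt ℝ (fderiv ℝ (fderiv ℝ f)) w := fun w hw =>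
    ((hC1 w hw).fderiv_right (m := ∞) (by simp)).differentiableAt (by simp)
  have hlip : ∀ w : ℂ, ‖w‖ ≤ 1 → ‖fderiv ℝ (fderiv ℝ f) w - fderiv ℝ (fderiv ℝ f) 0‖ ≤ q * ‖w‖ := by
    intro w hw
    refine NUB_lip (fderiv ℝ (fderiv ℝ f)) q hd3 (fun x hx => ?_) w hw
    rw [norm_iteratedFDeriv_fderiv, norm_iteratedFDeriv_fderiv]
    exact h3 x hx
  have hsm : ∀ s : ℝ, HasDerivAt (fun s : ℝ => (s : ℝ) • v) v s := by
    intro s
    have h := (hasDerivAt_id s).smul_const v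
    rwa [one_smul] at h
  -- derivatives along the segment
  have D1 : ∀ s ∈ Icc (0 : ℝ) 1, HasDerivAt (fun s : ℝ => f (s • v)) (fderiv ℝ f (s • v) v) s := fun s h =>
    (hd1 _ (hs s h)).hasFDerivAt.comp_hasDerivAt s (hsm s)
  have D2 : ∀ s ∈ Icc (0 : ℝ) 1, HasDerivAt (fun s : ℝ => fderiv ℝ f (s • v) v) (fderiv ℝ (fderiv ℝ f) (s • v) v v) s := by
    intro s h
    have h1 : HasDerivAt (fun s : ℝ => fderiv ℝ f (s • v)) (fderiv ℝ (fderiv ℝ f) (s • v) v) s :=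
      (hd2 _ (hs s h)).hasFDerivAt.comp_hasDerivAt s (hsm s)
    have h2 := h1.clm_apply (hasDerivAt_const s v)
    simp only [map_zero, add_zero] at h2
    exact h2
  set L : ℝ := fderiv ℝ f 0 v with hL
  set Q : ℝ := fderiv ℝ (fderiv ℝ f) 0 v v with hQ
  have hA : ∀ s ∈ Icc (0 : ℝ) 1, ‖fderiv ℝ (fderiv ℝ f) (s • v) v v - Q‖ ≤ q * ‖v‖ ^ 3 := by
    intro s h
    have h1 : fderiv ℝ (fderiv ℝ f) (s • v) v v - Q = (fderiv ℝ (fderiv ℝ f) (s • v) - fderiv ℝ (fderiv ℝ f) 0) v v := by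
      simp [hQ]
    rw [h1]
    have h2 := hlip _ (hs s h)
    have h4 : ‖(s : ℝ) • v‖ ≤ ‖v‖ := by
      rw [norm_smul, Real.norm_of_nonneg h.1]
      exact mul_le_of_le_one_left (norm_nonneg _) h.2
    calc _ ≤ ‖(fderiv ℝ (fderiv ℝ f) (s • v) - fderiv ℝ (fderiv ℝ f) 0) v‖ * ‖v‖ := ContinuousLinearMap.le_opNorm _ _
      _ ≤ ‖fderiv ℝ (fderiv ℝ f) (s • v) - fderiv ℝ (fderiv ℝ f) 0‖ * ‖v‖ * ‖v‖ :=
        mul_le_mul_of_nonneg_right (ContinuousLinearMap.le_opNorm _ _) (norm_nonneg _)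
      _ ≤ (q * ‖v‖) * ‖v‖ * ‖v‖ := by
        refine mul_le_mul_of_nonneg_right (mul_le_mul_of_nonneg_right (h2.trans ?_) (norm_nonneg _)) (norm_nonneg _)
        exact mul_le_mul_of_nonneg_left h4 hq
      _ = q * ‖v‖ ^ 3 := by ring
  have hB : ∀ s ∈ Icc (0 : ℝ) 1, ‖fderiv ℝ f (s • v) v - L - s * Q‖ ≤ q * ‖v‖ ^ 3 := by
    intro s h
    have h1 := norm_image_sub_le_of_norm_deriv_le_segment' (f := fun s : ℝ => fderiv ℝ f (s • v) v - L - s * Q)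
      (f' := fun s : ℝ => fderiv ℝ (fderiv ℝ f) (s • v) v v - Q) (a := 0) (b := 1) (C := q * ‖v‖ ^ 3)
      (fun s h => by
        have h2 := ((D2 s h).sub_const L).sub ((hasDerivAt_id s).mul_const Q)
        rw [one_mul] at h2
        exact h2.hasDerivWithinAt)
      (fun s h => hA s ⟨h.1, h.2.le⟩) s h
    have h3 : fderiv ℝ f ((0 : ℝ) • v) v - L - 0 * Q = 0 := by
      rw [zero_smul, hL]
      ring
    simp only [h3, sub_zero] at h1
    refine h1.trans ?_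
    exact mul_le_of_le_one_right (by positivity) h.2
  have h1 := norm_image_sub_le_of_norm_deriv_le_segment' (f := fun s : ℝ => f (s • v) - s * L - s ^ 2 / 2 * Q)
    (f' := fun s : ℝ => fderiv ℝ f (s • v) v - L - s * Q) (a := 0) (b := 1) (C := q * ‖v‖ ^ 3)
    (fun s h => by
      have h2 := ((D1 s h).sub ((hasDerivAt_id s).mul_const L)).sub ((((hasDerivAt_id s).pow 2).div_const 2).mul_const Q)
      refine (h2.congr_deriv ?_).hasDerivWithinAt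
      simp)
    (fun s h => hB s ⟨h.1, h.2.le⟩) 1 (right_mem_Icc.2 zero_le_one)
  have h4 : f v - f 0 - L - Q / 2 = f ((1 : ℝ) • v) - 1 * L - 1 ^ 2 / 2 * Q - (f ((0 : ℝ) • v) - 0 * L - 0 ^ 2 / 2 * Q) := by
    rw [one_smul, zero_smul]
    ring
  rw [h4]
  rw [sub_zero, mul_one] at h1
  exact h1

/-! ## The row -/

theorem NUB_inv (Γ : Subgroup SL(2, ℝ)) (U : ℍ → ℝ) (hU : QU.Inv Γ U) (γ : Γ) (g : SL(2, ℝ)) :
    Ug U ((γ : SL(2, ℝ)) * g) = Ug U g := by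
  funext v
  unfold Ug
  rw [mul_smul]
  exact hU.2 γ (g • cdi v)

/-- elementary estimates for the curvature -/
theorem NUB_curv (q k r h a : ℝ) (hqk : q * k = 1) (hq : 16 ≤ q) (hr : 6 * k ≤ r) (hh : |h| ≤ 2 * q) (ha0 : 0 ≤ a) (ha : a ≤ 2 * q ^ 2) :
    |-(1 + h / (2 * r) - a / (2 * r ^ 2)) / r| ≤ 1 + q ^ 5 := by
  have hk : 0 < k := by
    by_contra hcon
    push Not at hcon
    have : q * k ≤ 0 := mul_nonpos_of_nonneg_of_nonpos (by linarith) hcon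
    linarith
  have hr0 : 0 < r := by linarith
  have hs0 : 0 < r⁻¹ := inv_pos.2 hr0
  have hs2 : r⁻¹ ≤ q / 6 := by
    have h1 : r * (q / 6) ≥ 1 := by nlinarith
    rw [inv_le_iff_one_le_mul₀ hr0]
    linarith
  have e : -(1 + h / (2 * r) - a / (2 * r ^ 2)) / r = -(1 + h * r⁻¹ / 2 - a * r⁻¹ ^ 2 / 2) * r⁻¹ := by
    field_simp
  rw [e, abs_mul, abs_neg, abs_of_pos hs0]
  have h1 : |1 + h * r⁻¹ / 2 - a * r⁻¹ ^ 2 / 2| ≤ 1 + q ^ 2 / 6 + q ^ 4 / 36 := by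
    have h2 : |h * r⁻¹| ≤ 2 * q * (q / 6) := by
      rw [abs_mul, abs_of_pos hs0]
      exact mul_le_mul hh hs2 hs0.le (by linarith)
    have h3 : a * r⁻¹ ^ 2 ≤ 2 * q ^ 2 * (q / 6) ^ 2 :=
      mul_le_mul ha (pow_le_pow_left₀ hs0.le hs2 2) (by positivity) (by positivity)
    have h4 : 0 ≤ a * r⁻¹ ^ 2 := by positivity
    rw [abs_le] at h2 ⊢
    constructor <;> nlinarith [h2.1, h2.2]
  calc _ ≤ (1 + q ^ 2 / 6 + q ^ 4 / 36) * (q / 6) := mul_le_mul h1 hs2 hs0.le (by positivity)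
    _ ≤ 1 + q ^ 5 := by
      have h5 : q ≤ q ^ 5 := by nlinarith [pow_le_pow_right₀ (by linarith : (1 : ℝ) ≤ q) (by norm_num : 1 ≤ 5)]
      have h6 : q ^ 3 ≤ q ^ 5 := pow_le_pow_right₀ (by linarith : (1 : ℝ) ≤ q) (by norm_num)
      nlinarith

theorem NUB_proof (hVCD : VQ.VCD_stmt) : NUB_stmt := by
  intro k hk
  set q : ℝ := 1 / k with hqdef
  have hqk : q * k = 1 := by
    rw [hqdef]
    field_simp
  have hq0 : 0 < q := by positivity
  refine ⟨1 + q ^ 5, by linarith [pow_pos hq0 5], ?_⟩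
  intro Γ B U hP
  have hk16 := hP.kpos.2
  have hq : 16 ≤ q := by
    rw [hqdef, le_div_iff₀ hk]
    linarith
  have hq1 : 1 ≤ q := by linarith
  have hq5 : q ≤ q ^ 5 := by
    have := pow_le_pow_right₀ hq1 (by norm_num : 1 ≤ 5)
    rwa [pow_one] at this
  have hqC : q ≤ 1 + q ^ 5 := by linarith
  have hsm := NUB_cd hVCD U hP.smooth
  have hU0 : ∀ g : SL(2, ℝ), Ug U g 0 = U (g • I) := by
    intro g
    unfold Ug
    rw [NUB_cdi0 hVCD]
  have hUb : ∀ g : SL(2, ℝ), |U (g • I)| ≤ q := by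
    intro g
    have h := hP.up g 0 (by simp) 0 (by norm_num)
    rw [norm_iteratedFDeriv_zero, hU0, Real.norm_eq_abs] at h
    exact h
  have hF : ∀ (g : SL(2, ℝ)) (v : ℂ), ‖v‖ ≤ 1 → ‖fderiv ℝ (Ug U g) v‖ ≤ q := by
    intro g v hv
    rw [← norm_iteratedFDeriv_one]
    exact hP.up g v hv 1 (by norm_num)
  have hn : ∀ (g : SL(2, ℝ)) (w : ℂ), ‖w‖ = 1 → |fderiv ℝ (Ug U g) 0 w| ≤ q := by
    intro g w hw
    have h := (fderiv ℝ (Ug U g) 0).le_opNorm w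
    rw [hw, mul_one, Real.norm_eq_abs] at h
    exact h.trans (hF g 0 (by simp))
  have hFF : ∀ g : SL(2, ℝ), ‖fderiv ℝ (fderiv ℝ (Ug U g)) 0‖ ≤ q := by
    intro g
    rw [← norm_iteratedFDeriv_one, norm_iteratedFDeriv_fderiv]
    exact hP.up g 0 (by simp) 2 (by norm_num)
  have heb : ∀ i : Fin 2, ‖eb i‖ = 1 := by
    intro i
    unfold eb
    split_ifs
    · exact norm_one
    · exact Complex.norm_I
  have hh : ∀ (g : SL(2, ℝ)) (i j : Fin 2), |hess U g i j| ≤ q := by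
    intro g i j
    unfold hess
    have h1 := (fderiv ℝ (fderiv ℝ (Ug U g)) 0 (eb i)).le_opNorm (eb j)
    have h2 := (fderiv ℝ (fderiv ℝ (Ug U g)) 0).le_opNorm (eb i)
    rw [heb, mul_one] at h1 h2
    rw [Real.norm_eq_abs] at h1
    exact h1.trans (h2.trans (hFF g))
  have hsymm : ∀ (g : SL(2, ℝ)) (w w' : ℂ), fderiv ℝ (fderiv ℝ (Ug U g)) 0 w w' = fderiv ℝ (fderiv ℝ (Ug U g)) 0 w' w := by
    intro g w w'
    refine ((hsm g 0 (by simp)).isSymmSndFDerivAt ?_) w w'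
    rw [minSmoothness_of_isRCLikeNormedField]
    have h2 : ((2 : ℕ∞) : WithTop ℕ∞) ≤ ((⊤ : ℕ∞) : WithTop ℕ∞) := WithTop.coe_le_coe.2 le_top
    exact h2
  have hn1 : ∀ g, |n1 U g| ≤ q := fun g => hn g 1 norm_one
  have hn2 : ∀ g, |n2 U g| ≤ q := fun g => hn g Complex.I Complex.norm_I
  have hlo : ∀ (E : ℝ) (g : SL(2, ℝ)), |E| ≤ k → 6 * k ≤ U (g • I) + 2 * E ∧ U (g • I) + 2 * E ≤ q ^ 2 := by
    intro E g hE
    have h1 := hP.lo (g • I)
    have h2 := hUb g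
    rw [abs_le] at hE h2
    refine ⟨by linarith [hE.1], ?_⟩
    have h3 : q + 2 * k ≤ q ^ 2 := by nlinarith
    linarith [hE.2, h2.2]
  have hρ2 : ∀ (E : ℝ) (g : SL(2, ℝ)), |E| ≤ k → rho U E g ^ 2 = U (g • I) + 2 * E := by
    intro E g hE
    unfold rho
    rw [Real.sq_sqrt (by linarith [(hlo E g hE).1])]
  have hρk : ∀ (E : ℝ) (g : SL(2, ℝ)), |E| ≤ k → k ≤ rho U E g := by
    intro E g hE
    unfold rho
    refine Real.le_sqrt_of_sq_le ?_
    have h1 := (hlo E g hE).1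
    nlinarith
  have hkap : ∀ (E : ℝ) (g : SL(2, ℝ)), |E| ≤ k → kap U E g * rho U E g = n2 U g / 2 := by
    intro E g hE
    have h1 : rho U E g ≠ 0 := (hk.trans_le (hρk E g hE)).ne'
    unfold kap
    field_simp
  have hC0 := NUB_c0 hVCD U hP.smooth
  have hrhoc : Continuous (fun p : ℝ × SL(2, ℝ) => rho U p.1 p.2) := by
    have h1 : Continuous fun g : SL(2, ℝ) => U (g • I) := by
      have h2 : (fun g : SL(2, ℝ) => U (g • I)) = fun g : SL(2, ℝ) => Ug U g 0 := by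
        funext g
        exact (hU0 g).symm
      rw [h2]
      exact hC0
    unfold rho
    exact ((h1.comp continuous_snd).add (continuous_const.mul continuous_fst)).sqrt
  have hn2c : Continuous (n2 U) := NUB_c1 hVCD U hP.smooth Complex.I
  refine ⟨⟨hP.inv, fun z => ⟨?_, ?_⟩⟩, ?_, ?_, ⟨NUB_c1 hVCD U hP.smooth 1, hn2c, fun i j => ?_, hrhoc, ?_⟩, ?_, ?_, ?_⟩
  · linarith [hP.lo z]
  · obtain ⟨g, hg⟩ := MulAction.exists_smul_eq SL(2, ℝ) I z
    have h := hUb g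
    rw [hg, abs_le] at h
    exact h.2
  · intro g
    exact ⟨(hUb g).trans hqC, (hn1 g).trans hqC, (hn2 g).trans hqC, fun i j => (hh g i j).trans hqC,
      hsymm g (eb 0) (eb 1)⟩
  · intro E g hE
    have h1 := hρk E g hE
    have h2 := hρ2 E g hE
    have h3 := hkap E g hE
    have hρ0 : 0 < rho U E g := hk.trans_le h1
    obtain ⟨h4, h5⟩ := hlo E g hE
    refine ⟨?_, ?_, h2, ?_, h3, ?_⟩
    · refine le_trans ?_ h1
      rw [div_le_iff₀ (by positivity)]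
      nlinarith
    · have h6 : rho U E g ≤ q := by
        rw [← h2] at h5
        exact (sq_le_sq₀ hρ0.le hq0.le).1 h5
      exact h6.trans hqC
    · have h6 : |kap U E g| * rho U E g ≤ q / 2 := by
        have h7 : |kap U E g| * rho U E g = |kap U E g * rho U E g| := by rw [abs_mul, abs_of_pos hρ0]
        rw [h7, h3, abs_div, abs_of_pos (by norm_num : (0 : ℝ) < 2)]
        exact div_le_div_of_nonneg_right (hn2 g) (by norm_num)
      have h8 : |kap U E g| * k ≤ q / 2 := (mul_le_mul_of_nonneg_left h1 (abs_nonneg _)).trans h6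
      have h9 : |kap U E g| ≤ q ^ 2 / 2 := by
        have h10 : |kap U E g| = |kap U E g| * k * q := by
          rw [mul_assoc, mul_comm k q, hqk, mul_one]
        rw [h10]
        nlinarith
      have h11 : q ^ 2 ≤ q ^ 5 := pow_le_pow_right₀ hq1 (by norm_num)
      nlinarith [pow_pos hq0 2]
    · unfold Kg
      have e4 : rho U E g ^ 4 = (rho U E g ^ 2) ^ 2 := by ring
      rw [e4]
      refine NUB_curv q k (rho U E g ^ 2) _ _ hqk hq (by rw [h2]; exact h4) ?_ (by positivity) ?_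
      · have h6 := hh g 0 0
        have h7 := hh g 1 1
        calc _ ≤ |hess U g 0 0| + |hess U g 1 1| := abs_add_le _ _
          _ ≤ 2 * q := by linarith
      · have h6 : n1 U g ^ 2 ≤ q ^ 2 := sq_le_sq' (by linarith [(abs_le.1 (hn1 g)).1]) (abs_le.1 (hn1 g)).2
        have h7 : n2 U g ^ 2 ≤ q ^ 2 := sq_le_sq' (by linarith [(abs_le.1 (hn2 g)).1]) (abs_le.1 (hn2 g)).2
        linarith
  · exact NUB_c2 hVCD U hP.smooth (eb i) (eb j)
  · unfold kap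
    refine ContinuousOn.div (hn2c.comp continuous_snd).continuousOn (continuous_const.mul hrhoc).continuousOn ?_
    intro p hp
    have h1 := hρk p.1 p.2 hp
    have h2 : 0 < rho U p.1 p.2 := hk.trans_le h1
    positivity
  · intro γ g E
    have h1 := NUB_inv Γ U hP.inv γ g
    have h2 : n2 U ((γ : SL(2, ℝ)) * g) = n2 U g := by
      unfold n2
      rw [h1]
    have h3 : rho U E ((γ : SL(2, ℝ)) * g) = rho U E g := by
      unfold rho
      rw [← hU0, ← hU0, h1]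
    refine ⟨h1, ?_, h2, ?_, h3, ?_⟩
    · unfold n1
      rw [h1]
    · unfold hess
      rw [h1]
    · unfold kap
      rw [h2, h3]
  · intro g v hv
    refine ⟨hsm g v (by linarith), ?_⟩
    have h := (convex_closedBall (0 : ℂ) 1).norm_image_sub_le_of_norm_fderiv_le (𝕜 := ℝ)
      (f := Ug U g) (C := q) (fun x hx => by
        rw [mem_closedBall_zero_iff] at hx
        exact (hsm g x (by linarith)).differentiableAt (by simp))
      (fun x hx => hF g x (by rwa [mem_closedBall_zero_iff] at hx))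
      (x := 0) (y := v) (by simp) (by rwa [mem_closedBall_zero_iff])
    rw [sub_zero, Real.norm_eq_abs] at h
    exact h.trans (mul_le_mul_of_nonneg_right hqC (norm_nonneg _))
  · intro g v hv
    have h := NUB_taylor (Ug U g) q hq0.le (fun w hw => hsm g w (by linarith)) (fun w hw => hP.up g w hw 3 le_rfl) v hv
    have hv2 : v = (v.re : ℝ) • (1 : ℂ) + (v.im : ℝ) • Complex.I := by
      rw [Complex.real_smul, Complex.real_smul, mul_one]
      exact (Complex.re_add_im v).symm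
    have e1 : fderiv ℝ (Ug U g) 0 v = n1 U g * v.re + n2 U g * v.im := by
      conv_lhs => rw [hv2]
      rw [map_add, map_smul, map_smul]
      unfold n1 n2
      simp only [smul_eq_mul]
      ring
    have e2 : fderiv ℝ (fderiv ℝ (Ug U g)) 0 v v =
        hess U g 0 0 * v.re ^ 2 + 2 * hess U g 0 1 * v.re * v.im + hess U g 1 1 * v.im ^ 2 := by
      have h4 := hsymm g Complex.I 1
      have h5 : hess U g 0 0 = fderiv ℝ (fderiv ℝ (Ug U g)) 0 1 1 := rfl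
      have h6 : hess U g 0 1 = fderiv ℝ (fderiv ℝ (Ug U g)) 0 1 Complex.I := rfl
      have h7 : hess U g 1 1 = fderiv ℝ (fderiv ℝ (Ug U g)) 0 Complex.I Complex.I := rfl
      rw [h5, h6, h7]
      conv_lhs => rw [hv2]
      simp only [map_add, map_smul, add_apply, smul_apply, smul_eq_mul]
      rw [h4]
      ring
    rw [e1, e2, hU0] at h
    have e3 : Ug U g v - (U (g • I) + n1 U g * v.re + n2 U g * v.im +
        (hess U g 0 0 * v.re ^ 2 + 2 * hess U g 0 1 * v.re * v.im + hess U g 1 1 * v.im ^ 2) / 2) =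
        Ug U g v - U (g • I) - (n1 U g * v.re + n2 U g * v.im) -
        (hess U g 0 0 * v.re ^ 2 + 2 * hess U g 0 1 * v.re * v.im + hess U g 1 1 * v.im ^ 2) / 2 := by ring
    rw [e3]
    exact h.trans (mul_le_mul_of_nonneg_right hqC (by positivity))

end

end Pool.Agent.VN
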